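import Mathlib
import Pool.Agent.Y734.N.Stms

/-!
# Project Y734/R: integral points of bounded degree of `M_{0,n}`

Statements of the lemmas. For each degree `r` there is a bound `n₀` such that for `n ≥ n₀`, all
number fields `k` and all finite sets `S` of primes there are only finitely many `S`-integral points
of `M_{0,n}` over the extensions of `k` of degree at most `r`.
-/

set_option autoImplicit false

namespace Pool.Agent.Y734.R

open NumberField Filter Pool.Agent.Y734.M

/-- the field of rational functions in the variables `X (s, i)`, the universal conjugates of the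
coordinates of `m` points -/
abbrev UF (r m : ℕ) : Type := FractionRing (MvPolynomial (Fin r × Fin m) ℚ)

/-- the variables -/
noncomputable def ux (r m : ℕ) (s : Fin r) (i : Fin m) : UF r m :=
  algebraMap (MvPolynomial (Fin r × Fin m) ℚ) (UF r m) (MvPolynomial.X (s, i))

/-- the norms of the differences of the universal points -/
noncomputable def uw (r m : ℕ) (κ : Fin m × Fin m) : UF r m :=
  if κ.1 = κ.2 then 1 else ∏ s : Fin r, (ux r m s κ.1 - ux r m s κ.2)

/-- the norms of the differences -/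
noncomputable def nd (k : Type) {L : Type} [Field k] [Field L] [Algebra k L] {m : ℕ}
    (x : Fin m → L) (κ : Fin m × Fin m) : k :=
  if κ.1 = κ.2 then 1 else Algebra.norm k (x κ.1 - x κ.2)

/-- Job VAL. If a family `u i * z ^ α i` satisfies all equations of the elements `w i` of a field
`F`, there is a valuation of `F` for which the order of the values of the `w i` is given by the
`α i`. -/
def ValStmt : Prop :=
  ∀ (F k ι : Type) [Field F] [Algebra ℚ F] [Field k] [Algebra ℚ k] [Fintype ι] (w : ι → F)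
    (u : ι → k) (α : ι → ℤ), (∀ i, w i ≠ 0) → (∀ i, u i ≠ 0) →
    (∀ G : MvPolynomial ι ℚ, MvPolynomial.aeval w G = 0 → ∀ z : k, z ≠ 0 →
      MvPolynomial.aeval (fun i => u i * z ^ α i) G = 0) →
    ∃ O : ValuationSubring F, ∀ i j : ι,
      (α i = α j → O.valuation (w i) = O.valuation (w j)) ∧
      (α i < α j → O.valuation (w j) < O.valuation (w i))

/-- Job INT. If an element `t` is contained in all valuation rings in which the `w i` are units, it
is integral over the ring generated by the `w i` and their inverses. -/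
def IntStmt : Prop :=
  ∀ (F ι : Type) [Field F] [Algebra ℚ F] [Fintype ι] (w : ι → F) (t : F), (∀ i, w i ≠ 0) →
    (∀ O : ValuationSubring F, (∀ i, O.valuation (w i) = 1) → t ∈ O) →
    ∃ (d : ℕ) (μ : ι → ℕ) (G : Fin d → MvPolynomial ι ℚ),
      (∏ i, w i ^ μ i) * t ^ d + ∑ j : Fin d, MvPolynomial.aeval w (G j) * t ^ (j : ℕ) = 0

/-- Job REL. The norms of the differences satisfy the universal equations. -/
def RelStmt : Prop :=
  ∀ (k L : Type) [Field k] [NumberField k] [Field L] [NumberField L] [Algebra k L] (r m : ℕ),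
    Module.finrank k L = r → ∀ (x : Fin m → L) (G : MvPolynomial (Fin m × Fin m) ℚ),
      MvPolynomial.aeval (uw r m) G = 0 → MvPolynomial.aeval (nd k x) G = 0

/-- The combinatorial property: two systems of `r` ultrametrics on `m` points whose products are
ordered in opposite ways are trivial. -/
def Comb (r m : ℕ) : Prop :=
  ∀ (Γ Γ' : Type) [LinearOrderedCommGroupWithZero Γ] [LinearOrderedCommGroupWithZero Γ']
    (δ : Fin r → Fin m → Fin m → Γ) (δ' : Fin r → Fin m → Fin m → Γ'),
    (∀ s i j, i ≠ j → δ s i j ≠ 0) → (∀ s i j, i ≠ j → δ' s i j ≠ 0) →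
    (∀ s i j, δ s i j = δ s j i) → (∀ s i j, δ' s i j = δ' s j i) →
    (∀ s i j l, δ s i l ≤ max (δ s i j) (δ s j l)) →
    (∀ s i j l, δ' s i l ≤ max (δ' s i j) (δ' s j l)) →
    (∀ i j l, i ≠ j → i ≠ l →
      ((∏ s, δ s i j < ∏ s, δ s i l) ↔ (∏ s, δ' s i l < ∏ s, δ' s i j))) →
    ∀ s i j a b, i ≠ j → a ≠ b → δ s i j = δ s a b ∧ δ' s i j = δ' s a b

/-- Job COMB. -/
def CombStmt : Prop := ∀ r : ℕ, ∃ m₀ : ℕ, ∀ m, m₀ ≤ m → Comb r m

/-- Job FIN. There are only finitely many `x` with given norms of the differences. -/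
def FinStmt : Prop :=
  ∀ (r m : ℕ), 0 < r → Comb r m → ∀ (k : Type) [Field k] [NumberField k] (i₀ i₁ : Fin m),
    i₀ ≠ i₁ → ∀ a : Fin m × Fin m → k,
      Set.Finite {y : Fin m → ℂ | ∃ (L : Type) (_ : Field L) (_ : NumberField L) (_ : Algebra k L)
        (x : Fin m → L) (φ : L →+* ℂ), Module.finrank k L = r ∧ x i₀ = 0 ∧ x i₁ = 1 ∧
          Function.Injective x ∧ nd k x = a ∧ y = fun i => φ (x i)}

/-- The ideal of the equations is finitely generated. -/
def HilStmt : Prop :=
  ∀ (F ι : Type) [Field F] [Algebra ℚ F] [Fintype ι] (w : ι → F),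
    ∃ s : Finset (MvPolynomial ι ℚ), (∀ G ∈ s, MvPolynomial.aeval w G = 0) ∧
      ∀ (k : Type) [Field k] [Algebra ℚ k] (y : ι → k),
        (∀ G ∈ s, MvPolynomial.aeval y G = 0) →
        ∀ G : MvPolynomial ι ℚ, MvPolynomial.aeval w G = 0 → MvPolynomial.aeval y G = 0

/-- Job TORI. The statement `TorStmt` for any finite set of indices. -/
def ToriStmt : Prop :=
  ∀ (k ι : Type) [Field k] [NumberField k] [Fintype ι] (S : Finset ℕ) (_ : ∀ p ∈ S, p.Prime)
    (f : ι → ℕ → k) (_ : ∀ i t, SU S (f i t))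
    (_ : Set.Infinite (Set.range fun t => fun i => f i t)) (D : ℕ),
    ∃ (U : Ultrafilter ℕ) (α : ι → ℤ), (∃ i, α i ≠ 0) ∧ (∀ i, (∀ t, f i t = 1) → α i = 0) ∧
      ∀ F : MvPolynomial ι ℚ, F.totalDegree ≤ D →
        (∀ t, MvPolynomial.aeval (fun i => f i t) F = 0) →
          ∀ᶠ t in (U : Filter ℕ), ∀ z : k, z ≠ 0 →
            MvPolynomial.aeval (fun i => f i t * z ^ α i) F = 0

/-- Job SUR. Norms of `S`-units are `S`-units. -/
def SurStmt : Prop :=
  ∀ (k L : Type) [Field k] [NumberField k] [Field L] [NumberField L] [Algebra k L] (S : Finset ℕ)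
    (a : L), SU S a → SU S (Algebra.norm k a)

/-- Job LOW. Infinitely many points of degree at most `r` of `M_{0,2r+1}`, for `r ≥ 2`. -/
def LowStmt : Prop :=
  ∀ (k : Type) [Field k] [NumberField k] (r : ℕ), 2 ≤ r → ∃ S : Finset ℕ, (∀ p ∈ S, p.Prime) ∧
    Set.Infinite {c : Fin (2 * r + 1) → Fin (2 * r + 1) → Fin (2 * r + 1) → Fin (2 * r + 1) → ℂ |
      ∃ (L : Type) (_ : Field L) (_ : NumberField L) (_ : Algebra k L)
        (P : Fin (2 * r + 1) → Fin 2 → L) (φ : L →+* ℂ),
        Module.finrank k L ≤ r ∧ IP S P ∧ c = fun i j l m => φ (cr P i j l m)}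

/-- the coordinates of the integral points -/
def Xs (k : Type) [Field k] (r m : ℕ) (S : Finset ℕ) (i₀ i₁ : Fin m) : Set (Fin m → ℂ) :=
  {y | ∃ (L : Type) (_ : Field L) (_ : NumberField L) (_ : Algebra k L) (x : Fin m → L)
    (φ : L →+* ℂ), Module.finrank k L = r ∧ x i₀ = 0 ∧ x i₁ = 1 ∧
      (∀ i j, i ≠ j → SU S (x i - x j)) ∧ y = fun i => φ (x i)}

/-- the integral points of degree at most `r` -/
def Ps (k : Type) [Field k] (r n : ℕ) (S : Finset ℕ) : Set (Fin n → Fin n → Fin n → Fin n → ℂ) :=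
  {c | ∃ (L : Type) (_ : Field L) (_ : NumberField L) (_ : Algebra k L) (P : Fin n → Fin 2 → L)
    (φ : L →+* ℂ), Module.finrank k L ≤ r ∧ IP S P ∧ c = fun i j l m => φ (cr P i j l m)}

/-- Job PTS. From coordinates to points. -/
def PtsStmt : Prop :=
  ∀ (k : Type) [Field k] [NumberField k] (r n : ℕ) (S : Finset ℕ),
    (∀ r', 0 < r' → r' ≤ r → (Xs k r' (n + 2) S 1 0).Finite) → (Ps k r (n + 3) S).Finite

/-- Job MON. Monotonicity. -/
def MonStmt : Prop :=
  ∀ (k : Type) [Field k] [NumberField k] (r n : ℕ) (S : Finset ℕ), 4 ≤ n →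
    (Ps k r n S).Finite → (Ps k r (n + 1) S).Finite

end Pool.Agent.Y734.R
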