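import Mathlib

/-!
# Project Y734/R: statements for the explicit bound
-/

set_option autoImplicit false

namespace Pool.Agent.Y734.R

/-- The combinatorial property: `q` ultrametrics on `m` points whose product is one are constant. -/
def CombP (q m : ℕ) : Prop :=
  ∀ (Γ : Type) [LinearOrderedCommGroupWithZero Γ] (δ : Fin q → Fin m → Fin m → Γ),
    (∀ s i j, i ≠ j → δ s i j ≠ 0) → (∀ s i j, δ s i j = δ s j i) →
    (∀ s i j l, δ s i l ≤ max (δ s i j) (δ s j l)) →
    (∀ i j, i ≠ j → ∏ s, δ s i j = 1) →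
    ∀ s i j a b, i ≠ j → a ≠ b → δ s i j = δ s a b

/-- Job CA. The additive form, with an explicit bound. -/
def CombAStmt : Prop :=
  ∀ (G : Type) [AddCommGroup G] [LinearOrder G] [IsOrderedAddMonoid G] (q m L : ℕ)
    (d : Fin q → Fin m → Fin m → G), 2 ≤ q → q * (q - 1) * (q - 1) ^ L < q ^ L →
    q ^ (L + 1) ≤ m → (∀ s i j, d s i j = d s j i) →
    (∀ s i j l, i ≠ j → j ≠ l → i ≠ l → d s i l ≤ max (d s i j) (d s j l)) →
    (∀ i j, i ≠ j → ∑ s, d s i j = 0) →
    ∀ s i j a b, i ≠ j → a ≠ b → d s i j = d s a b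

/-- Job CP. The multiplicative form. -/
def CombPStmt : Prop :=
  ∀ q m : ℕ, 0 < q → q ^ (2 * q * Nat.clog 2 q + 1) ≤ m → CombP q m

/-- Job PR. Independent systems of elements of polynomial rings satisfy only the equations which
follow from the equations of the two systems. -/
def ProdStmt : Prop :=
  ∀ (σ τ ι ι' k : Type) [Finite σ] [Finite τ] [Finite ι] [Finite ι'] [Field k] [Algebra ℚ k]
    (w : ι → MvPolynomial σ ℚ) (w' : ι' → MvPolynomial τ ℚ) (u : ι → k) (v : ι' → k),
    (∀ G : MvPolynomial ι ℚ, MvPolynomial.aeval w G = 0 → MvPolynomial.aeval u G = 0) →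
    (∀ G : MvPolynomial ι' ℚ, MvPolynomial.aeval w' G = 0 → MvPolynomial.aeval v G = 0) →
    ∀ G : MvPolynomial (ι ⊕ ι') ℚ,
      MvPolynomial.aeval (Sum.elim (fun i => MvPolynomial.rename Sum.inl (w i))
        (fun i => MvPolynomial.rename Sum.inr (w' i)) : ι ⊕ ι' → MvPolynomial (σ ⊕ τ) ℚ) G = 0 →
      MvPolynomial.aeval (Sum.elim u v) G = 0

end Pool.Agent.Y734.R
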