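import Mathlib
import Pool.Agent.Y734.R.Stms3
import Pool.Agent.Y734.R.FIN.Main

/-!
# Project Y734/R: finitely many points with given norms, under the property `CombP`
-/

set_option autoImplicit false

namespace Pool.Agent.Y734.R

open Pool.Agent.Y734.M Pool.Agent.Y734.R.FIN

/-- There are only finitely many `x` with given norms of the differences. -/
def FinStmt2 : Prop :=
  ∀ (r m : ℕ), 0 < r → CombP r m → ∀ (k : Type) [Field k] [NumberField k] (i₀ i₁ : Fin m),
    i₀ ≠ i₁ → ∀ a : Fin m × Fin m → k,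
      Set.Finite {y : Fin m → ℂ | ∃ (L : Type) (_ : Field L) (_ : NumberField L) (_ : Algebra k L)
        (x : Fin m → L) (φ : L →+* ℂ), Module.finrank k L = r ∧ x i₀ = 0 ∧ x i₁ = 1 ∧
          Function.Injective x ∧ nd k x = a ∧ y = fun i => φ (x i)}

/-- the coordinates are integral over the ring of the norms and their inverses -/
theorem val_claim2 {r m : ℕ} (hc : CombP r m) (s : Fin r) (i i₀ i₁ : Fin m) (h01 : i₀ ≠ i₁)
    (O : ValuationSubring (UF r m)) (hO : ∀ κ, O.valuation (uw r m κ) = 1) :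
    (ux r m s i - ux r m s i₀) / (ux r m s i₁ - ux r m s i₀) ∈ O := by
  by_cases hi : i = i₀
  · rw [hi, sub_self, zero_div]
    exact O.zero_mem
  have hne : ∀ (s : Fin r) (i j : Fin m), i ≠ j → O.valuation (ux r m s i - ux r m s j) ≠ 0 :=
    fun s i j h => (Valuation.ne_zero_iff _).2 (ux_ne s h)
  have hsym : ∀ (s : Fin r) (i j : Fin m),
      O.valuation (ux r m s i - ux r m s j) = O.valuation (ux r m s j - ux r m s i) := by
    intro s i j
    rw [← Valuation.map_neg, neg_sub]
  have hult : ∀ (s : Fin r) (i j l : Fin m), O.valuation (ux r m s i - ux r m s l) ≤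
      max (O.valuation (ux r m s i - ux r m s j)) (O.valuation (ux r m s j - ux r m s l)) := by
    intro s i j l
    have h := Valuation.map_add O.valuation (ux r m s i - ux r m s j) (ux r m s j - ux r m s l)
    rw [sub_add_sub_cancel] at h
    exact h
  have hprod : ∀ i j : Fin m, i ≠ j → ∏ s : Fin r, O.valuation (ux r m s i - ux r m s j) = 1 := by
    intro i j h
    have h1 := hO (i, j)
    unfold uw at h1
    rw [if_neg h, map_prod] at h1
    exact h1
  have h := hc O.ValueGroup (fun s i j => O.valuation (ux r m s i - ux r m s j)) hne hsym hult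
    hprod s i i₀ i₁ i₀ hi h01.symm
  rw [← O.valuation_le_one_iff, map_div₀]
  rw [h, div_self (hne s i₁ i₀ h01.symm)]

/-- the equation of a coordinate -/
theorem exists_eq2 (hi : IntStmt) {r m : ℕ} (hc : CombP r m) (s : Fin r) (i i₀ i₁ : Fin m)
    (h01 : i₀ ≠ i₁) : ∃ (d : ℕ) (μ : Fin m × Fin m → ℕ)
      (G : Fin d → MvPolynomial (Fin m × Fin m) ℚ),
      (∏ κ, WW r m κ ^ μ κ) * (MvPolynomial.X (s, i) - MvPolynomial.X (s, i₀)) ^ d +
        ∑ j : Fin d, MvPolynomial.aeval (WW r m) (G j) *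
          ((MvPolynomial.X (s, i) - MvPolynomial.X (s, i₀)) ^ (j : ℕ) *
            (MvPolynomial.X (s, i₁) - MvPolynomial.X (s, i₀)) ^ (d - (j : ℕ))) = 0 := by
  obtain ⟨d, μ, G, h⟩ := hi (UF r m) (Fin m × Fin m) (uw r m)
    ((ux r m s i - ux r m s i₀) / (ux r m s i₁ - ux r m s i₀)) uw_ne
    (fun O hO => val_claim2 hc s i i₀ i₁ h01 O hO)
  refine ⟨d, μ, G, ?_⟩
  apply IsFractionRing.injective (MvPolynomial (Fin r × Fin m) ℚ) (UF r m)
  have hb : ux r m s i₁ - ux r m s i₀ ≠ 0 := ux_ne s h01.symm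
  have hG : ∀ j, algebraMap (MvPolynomial (Fin r × Fin m) ℚ) (UF r m)
      (MvPolynomial.aeval (WW r m) (G j)) = MvPolynomial.aeval (uw r m) (G j) := by
    intro j
    have h1 := MvPolynomial.comp_aeval_apply (WW r m)
      (algebraMap (MvPolynomial (Fin r × Fin m) ℚ) (UF r m)).toRatAlgHom (G j)
    have h2 : (fun κ => (algebraMap (MvPolynomial (Fin r × Fin m) ℚ) (UF r m)).toRatAlgHom
        (WW r m κ)) = uw r m := funext fun κ => map_WW r m κ
    rw [h2] at h1
    exact h1
  have hX : ∀ j : Fin m, algebraMap (MvPolynomial (Fin r × Fin m) ℚ) (UF r m)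
      (MvPolynomial.X (s, j)) = ux r m s j := fun j => rfl
  rw [map_zero, map_add, map_mul, map_prod, map_pow, map_sub, hX, hX, map_sum]
  simp only [map_pow, map_mul, map_sub, hX, hG, map_WW]
  have h3 := congrArg (fun z => z * (ux r m s i₁ - ux r m s i₀) ^ d) h
  simp only [zero_mul, add_mul, Finset.sum_mul] at h3
  rw [← h3]
  congr 1
  · rw [div_pow, mul_assoc, div_mul_cancel₀ _ (pow_ne_zero _ hb)]
  · refine Finset.sum_congr rfl fun j _ => ?_
    rw [mul_assoc]
    congr 1
    have h4 : (ux r m s i₁ - ux r m s i₀) ^ d = (ux r m s i₁ - ux r m s i₀) ^ (j : ℕ) *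
        (ux r m s i₁ - ux r m s i₀) ^ (d - (j : ℕ)) := by
      rw [← pow_add, Nat.add_sub_cancel' j.2.le]
    rw [h4, ← mul_assoc, div_pow, div_mul_cancel₀ _ (pow_ne_zero _ hb)]

/-- There are only finitely many points with given norms of the differences. -/
theorem finn2 (hi : IntStmt) : FinStmt2 := by
  classical
  intro r m hr hc k _ _ i₀ i₁ h01 a
  by_cases ha : ∀ κ, a κ ≠ 0
  · set s : Fin r := ⟨0, hr⟩
    choose d μ G hG using fun i => exists_eq2 hi hc s i i₀ i₁ h01
    have hfin : ∀ i, Set.Finite {z : ℂ | ∃ ψ : k →+* ℂ, ((PP a (d i) (μ i) (G i)).map ψ).IsRoot z} := by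
      intro i
      have h1 : {z : ℂ | ∃ ψ : k →+* ℂ, ((PP a (d i) (μ i) (G i)).map ψ).IsRoot z} =
          ⋃ ψ : k →+* ℂ, {z : ℂ | ((PP a (d i) (μ i) (G i)).map ψ).IsRoot z} := by
        ext z
        simp
      rw [h1]
      refine Set.finite_iUnion fun ψ => Polynomial.finite_setOfPred_isRoot ?_
      rw [Polynomial.map_ne_zero_iff ψ.injective]
      exact PP_ne a ha _ _ _
    refine (Set.Finite.pi' hfin).subset ?_
    rintro y ⟨L, _, _, _, x, φ, h1, h2, h3, h4, h5, rfl⟩ i
    refine ⟨φ.comp (algebraMap k L), ?_⟩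
    have h6 := spec s i i₀ i₁ (d i) (μ i) (G i) (hG i) k L h1 x h2 h3
    rw [h5] at h6
    rw [Polynomial.IsRoot, Polynomial.eval_map, ← Polynomial.hom_eval₂]
    rw [Polynomial.aeval_def] at h6
    rw [h6, map_zero]
  · refine Set.finite_empty.subset ?_
    rintro y ⟨L, _, _, _, x, φ, h1, h2, h3, h4, h5, rfl⟩
    exfalso
    apply ha
    intro κ
    rw [← h5]
    exact nd_ne k x h4 κ

end Pool.Agent.Y734.R
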