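import Mathlib
import Pool.Agent.Y734.R.Stms

/-!
# Project Y734/R: the ideal of the equations is finitely generated
-/

set_option autoImplicit false

namespace Pool.Agent.Y734.R

theorem hil : HilStmt := by
  intro F ι _ _ _ w
  obtain ⟨s, hs⟩ := (isNoetherianRing_iff_ideal_fg (MvPolynomial ι ℚ)).1 inferInstance
    (RingHom.ker (MvPolynomial.aeval w : MvPolynomial ι ℚ →ₐ[ℚ] F).toRingHom)
  refine ⟨s, fun G hG => ?_, fun k _ _ y hy G hG => ?_⟩
  · have h1 : G ∈ Ideal.span (s : Set (MvPolynomial ι ℚ)) := Ideal.subset_span hG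
    rw [hs] at h1
    exact h1
  · have h1 : G ∈ Ideal.span (s : Set (MvPolynomial ι ℚ)) := by
      rw [hs]
      exact hG
    have h2 : Ideal.span (s : Set (MvPolynomial ι ℚ)) ≤
        RingHom.ker (MvPolynomial.aeval y : MvPolynomial ι ℚ →ₐ[ℚ] k).toRingHom := by
      rw [Ideal.span_le]
      intro G hG
      exact hy G hG
    exact h2 h1

end Pool.Agent.Y734.R
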