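import Mathlib
import Pool.Agent.Y734.R.Fin2
import Pool.Agent.Y734.R.Hil

/-!
# Project Y734/R: finiteness of the coordinates, with an explicit bound
-/

set_option autoImplicit false

namespace Pool.Agent.Y734.R

open NumberField Filter Pool.Agent.Y734.M Pool.Agent.Y734.R.FIN

/-- the polynomial ring in two independent systems of variables -/
abbrev GR (r m : ℕ) : Type := MvPolynomial ((Fin r × Fin m) ⊕ (Fin r × Fin m)) ℚ

/-- its field of fractions -/
abbrev GF (r m : ℕ) : Type := FractionRing (GR r m)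

/-- the variables -/
def gi (r m : ℕ) (s : Fin (r + r)) (i : Fin m) : (Fin r × Fin m) ⊕ (Fin r × Fin m) :=
  Sum.map (fun s' => (s', i)) (fun s' => (s', i)) (finSumFinEquiv.symm s)

theorem gi_injective {r m : ℕ} (s : Fin (r + r)) {i j : Fin m} (h : gi r m s i = gi r m s j) :
    i = j := by
  unfold gi at h
  generalize finSumFinEquiv.symm s = c at h
  rcases c with s' | s'
  · exact (Prod.mk.inj (Sum.inl_injective h)).2
  · exact (Prod.mk.inj (Sum.inr_injective h)).2

/-- the variables -/
noncomputable def gx (r m : ℕ) (s : Fin (r + r)) (i : Fin m) : GF r m :=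
  algebraMap (GR r m) (GF r m) (MvPolynomial.X (gi r m s i))

theorem gx_ne {r m : ℕ} (s : Fin (r + r)) {i j : Fin m} (h : i ≠ j) :
    gx r m s i - gx r m s j ≠ 0 := by
  intro h0
  have h1 : gx r m s i = gx r m s j := sub_eq_zero.1 h0
  unfold gx at h1
  have h2 := IsFractionRing.injective (GR r m) (GF r m) h1
  exact h (gi_injective s (MvPolynomial.X_injective h2))

/-- the norms of the first system -/
noncomputable def wl (r m : ℕ) (κ : Fin m × Fin m) : GR r m :=
  MvPolynomial.rename Sum.inl (WW r m κ)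

/-- the norms of the second system -/
noncomputable def wr (r m : ℕ) (κ : Fin m × Fin m) : GR r m :=
  MvPolynomial.rename Sum.inr (WW r m κ)

theorem WW_ne {r m : ℕ} (κ : Fin m × Fin m) : WW r m κ ≠ 0 := by
  intro h
  apply uw_ne (r := r) κ
  rw [← map_WW, h, map_zero]

theorem wl_ne {r m : ℕ} (κ : Fin m × Fin m) : algebraMap (GR r m) (GF r m) (wl r m κ) ≠ 0 := by
  intro h
  have h1 := IsFractionRing.injective (GR r m) (GF r m) (h.trans (map_zero _).symm)
  have h2 := MvPolynomial.rename_injective _ Sum.inl_injective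
    (h1.trans (map_zero (MvPolynomial.rename (R := ℚ) Sum.inl)).symm)
  exact WW_ne κ h2

theorem wr_ne {r m : ℕ} (κ : Fin m × Fin m) : algebraMap (GR r m) (GF r m) (wr r m κ) ≠ 0 := by
  intro h
  have h1 := IsFractionRing.injective (GR r m) (GF r m) (h.trans (map_zero _).symm)
  have h2 := MvPolynomial.rename_injective _ Sum.inr_injective
    (h1.trans (map_zero (MvPolynomial.rename (R := ℚ) Sum.inr)).symm)
  exact WW_ne κ h2

theorem algebraMap_wl {r m : ℕ} {i j : Fin m} (h : i ≠ j) :
    algebraMap (GR r m) (GF r m) (wl r m (i, j)) =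
      ∏ s : Fin r, (gx r m (finSumFinEquiv (Sum.inl s)) i -
        gx r m (finSumFinEquiv (Sum.inl s)) j) := by
  unfold wl WW
  rw [if_neg h, map_prod, map_prod]
  refine Finset.prod_congr rfl fun s _ => ?_
  rw [map_sub, map_sub, MvPolynomial.rename_X, MvPolynomial.rename_X]
  unfold gx gi
  rw [Equiv.symm_apply_apply]
  rfl

theorem algebraMap_wr {r m : ℕ} {i j : Fin m} (h : i ≠ j) :
    algebraMap (GR r m) (GF r m) (wr r m (i, j)) =
      ∏ s : Fin r, (gx r m (finSumFinEquiv (Sum.inr s)) i -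
        gx r m (finSumFinEquiv (Sum.inr s)) j) := by
  unfold wr WW
  rw [if_neg h, map_prod, map_prod]
  refine Finset.prod_congr rfl fun s _ => ?_
  rw [map_sub, map_sub, MvPolynomial.rename_X, MvPolynomial.rename_X]
  unfold gx gi
  rw [Equiv.symm_apply_apply]
  rfl

/-- the equations of the two systems -/
theorem equations (hprd : ProdStmt) {r m : ℕ} {k : Type} [Field k] [NumberField k]
    (u : Fin m × Fin m → k) (α : Fin m × Fin m → ℤ)
    (h : ∀ G : MvPolynomial (Fin m × Fin m) ℚ, MvPolynomial.aeval (uw r m) G = 0 → ∀ z : k,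
      z ≠ 0 → MvPolynomial.aeval (fun i => u i * z ^ α i) G = 0)
    (G : MvPolynomial ((Fin m × Fin m) ⊕ (Fin m × Fin m)) ℚ)
    (hG : MvPolynomial.aeval (Sum.elim (fun κ => algebraMap (GR r m) (GF r m) (wl r m κ))
      (fun κ => algebraMap (GR r m) (GF r m) (wl r m κ) *
        algebraMap (GR r m) (GF r m) (wr r m κ))) G = 0) (z : k) (hz : z ≠ 0) :
    MvPolynomial.aeval (fun c => Sum.elim u (fun κ => u κ * u κ) c *
      z ^ (Sum.elim α (fun _ => 0) c : ℤ)) G = 0 := by
  have hW : ∀ F : MvPolynomial (Fin m × Fin m) ℚ, MvPolynomial.aeval (WW r m) F = 0 →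
      MvPolynomial.aeval (uw r m) F = 0 := by
    intro F hF
    have h1 := MvPolynomial.comp_aeval_apply (WW r m)
      (algebraMap (MvPolynomial (Fin r × Fin m) ℚ) (UF r m)).toRatAlgHom F
    have h2 : (fun κ => (algebraMap (MvPolynomial (Fin r × Fin m) ℚ) (UF r m)).toRatAlgHom
        (WW r m κ)) = uw r m := funext fun κ => map_WW r m κ
    rw [h2, hF, map_zero] at h1
    exact h1.symm
  set E : (Fin m × Fin m) ⊕ (Fin m × Fin m) → MvPolynomial ((Fin m × Fin m) ⊕ (Fin m × Fin m)) ℚ :=
    Sum.elim (fun κ => MvPolynomial.X (Sum.inl κ))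
      (fun κ => MvPolynomial.X (Sum.inl κ) * MvPolynomial.X (Sum.inr κ)) with hE
  have h1 := hprd (Fin r × Fin m) (Fin r × Fin m) (Fin m × Fin m) (Fin m × Fin m) k (WW r m)
    (WW r m) (fun κ => u κ * z ^ α κ) (fun κ => u κ * z⁻¹ ^ α κ)
    (fun F hF => h F (hW F hF) z hz) (fun F hF => h F (hW F hF) z⁻¹ (inv_ne_zero hz))
    (MvPolynomial.aeval E G) (by
      have h2 := MvPolynomial.comp_aeval_apply E
        (MvPolynomial.aeval (Sum.elim (fun i => MvPolynomial.rename Sum.inl (WW r m i))
          (fun i => MvPolynomial.rename Sum.inr (WW r m i)) :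
          (Fin m × Fin m) ⊕ (Fin m × Fin m) → GR r m)) G
      rw [h2]
      apply IsFractionRing.injective (GR r m) (GF r m)
      rw [map_zero]
      have h3 := MvPolynomial.comp_aeval_apply (fun c => MvPolynomial.aeval
        (Sum.elim (fun i => MvPolynomial.rename Sum.inl (WW r m i))
          (fun i => MvPolynomial.rename Sum.inr (WW r m i)) :
          (Fin m × Fin m) ⊕ (Fin m × Fin m) → GR r m) (E c))
        (algebraMap (GR r m) (GF r m)).toRatAlgHom G
      refine Eq.trans h3 ?_
      rw [← hG]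
      congr 2
      funext c
      rcases c with κ | κ
      · simp [hE, wl]
      · simp [hE, wl, wr])
  rw [MvPolynomial.comp_aeval_apply] at h1
  rw [← h1]
  congr 2
  funext c
  rcases c with κ | κ
  · simp [hE]
  · simp only [hE, Sum.elim_inr, map_mul, MvPolynomial.aeval_X, Sum.elim_inl, zpow_zero, mul_one]
    have h4 : z ^ α κ * z⁻¹ ^ α κ = 1 := by
      rw [← mul_zpow, mul_inv_cancel₀ hz, one_zpow]
    calc u κ * u κ = u κ * u κ * (z ^ α κ * z⁻¹ ^ α κ) := by rw [h4, mul_one]
      _ = _ := by ring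

/-- A toric family which satisfies the universal equations is trivial. -/
theorem triv2 {r m : ℕ} (hc : CombP (r + r) m) (hval : ValStmt) (hprd : ProdStmt) {k : Type}
    [Field k] [NumberField k] (u : Fin m × Fin m → k) (hu : ∀ κ, u κ ≠ 0)
    (α : Fin m × Fin m → ℤ)
    (h : ∀ G : MvPolynomial (Fin m × Fin m) ℚ, MvPolynomial.aeval (uw r m) G = 0 → ∀ z : k,
      z ≠ 0 → MvPolynomial.aeval (fun i => u i * z ^ α i) G = 0) :
    ∀ i j a b : Fin m, i ≠ j → a ≠ b → α (i, j) = α (a, b) := by
  obtain ⟨O, hO⟩ := hval (GF r m) k ((Fin m × Fin m) ⊕ (Fin m × Fin m))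
    (Sum.elim (fun κ => algebraMap (GR r m) (GF r m) (wl r m κ))
      (fun κ => algebraMap (GR r m) (GF r m) (wl r m κ) *
        algebraMap (GR r m) (GF r m) (wr r m κ)))
    (Sum.elim u (fun κ => u κ * u κ)) (Sum.elim α (fun _ => 0))
    (by
      intro c
      rcases c with κ | κ
      · exact wl_ne κ
      · exact mul_ne_zero (wl_ne κ) (wr_ne κ))
    (by
      intro c
      rcases c with κ | κ
      · exact hu κ
      · exact mul_ne_zero (hu κ) (hu κ))
    (fun G hG z hz => equations hprd u α h G hG z hz)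
  have hone : ∀ κ, O.valuation (algebraMap (GR r m) (GF r m) (wl r m κ)) *
      O.valuation (algebraMap (GR r m) (GF r m) (wr r m κ)) = 1 := by
    intro κ
    have h1 := (hO (Sum.inr κ) (Sum.inr (κ.1, κ.1))).1 rfl
    simp only [Sum.elim_inr, map_mul] at h1
    rw [h1]
    simp [wl, wr, WW]
  have hlt : ∀ κ κ', α κ < α κ' → O.valuation (algebraMap (GR r m) (GF r m) (wl r m κ')) <
      O.valuation (algebraMap (GR r m) (GF r m) (wl r m κ)) := by
    intro κ κ' h1
    exact (hO (Sum.inl κ) (Sum.inl κ')).2 h1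
  have h3 := hc O.ValueGroup (fun s i j => O.valuation (gx r m s i - gx r m s j))
    (fun s i j hij => (Valuation.ne_zero_iff _).2 (gx_ne s hij))
    (fun s i j => by rw [← Valuation.map_neg, neg_sub])
    (fun s i j l => by
      have h4 := Valuation.map_add O.valuation (gx r m s i - gx r m s j) (gx r m s j - gx r m s l)
      rw [sub_add_sub_cancel] at h4
      exact h4)
    (fun i j hij => by
      rw [← hone (i, j), algebraMap_wl hij, algebraMap_wr hij, map_prod, map_prod,
        ← Fintype.prod_sum_type (fun c => O.valuation (gx r m (finSumFinEquiv c) i -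
          gx r m (finSumFinEquiv c) j))]
      exact (Equiv.prod_comp finSumFinEquiv (fun s => O.valuation (gx r m s i - gx r m s j))).symm)
  intro i j a b hij hab
  have h4 : O.valuation (algebraMap (GR r m) (GF r m) (wl r m (i, j))) =
      O.valuation (algebraMap (GR r m) (GF r m) (wl r m (a, b))) := by
    rw [algebraMap_wl hij, algebraMap_wl hab, map_prod, map_prod]
    exact Finset.prod_congr rfl fun s _ => h3 _ i j a b hij hab
  rcases lt_trichotomy (α (i, j)) (α (a, b)) with h5 | h5 | h5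
  · exact absurd h4.symm (ne_of_lt (hlt _ _ h5))
  · exact h5
  · exact absurd h4 (ne_of_lt (hlt _ _ h5))

/-- Finiteness of the coordinates for points of degree `r`. -/
theorem core2 {r m : ℕ} (hr : 0 < r) (hc : CombP r m) (hc2 : CombP (r + r) m) (hval : ValStmt)
    (hprd : ProdStmt) (hrel : RelStmt) (hfin : FinStmt2) (htor : ToriStmt) (hsur : SurStmt)
    (k : Type) [Field k] [NumberField k] (S : Finset ℕ) (hS : ∀ p ∈ S, p.Prime) (i₀ i₁ : Fin m)
    (hi : i₀ ≠ i₁) : (Xs k r m S i₀ i₁).Finite := by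
  classical
  by_contra hinf
  have hinf' : Set.Infinite (Xs k r m S i₀ i₁) := hinf
  let q := hinf'.natEmbedding
  have hq := fun t => (q t).2
  simp only [Xs, Set.mem_ofPred_eq] at hq
  choose L iF iN iA x φ hL hx0 hx1 hxS hy using hq
  set f : Fin m × Fin m → ℕ → k := fun κ t => nd k (x t) κ with hf
  have hinj : ∀ t, Function.Injective (x t) := by
    intro t i j hij
    by_contra hne
    exact (hxS t i j hne).1 (sub_eq_zero.2 hij)
  have hSU : ∀ κ t, SU S (f κ t) := by
    intro κ t
    simp only [hf, nd]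
    split_ifs with h
    · exact ⟨one_ne_zero, 0, by simpa using isIntegral_one, by simpa using isIntegral_one⟩
    · exact hsur k (L t) S _ (hxS t _ _ h)
  have hrange : Set.Infinite (Set.range fun t => fun κ => f κ t) := by
    intro hfr
    have : Finite (Set.range fun t => fun κ => f κ t) := hfr
    obtain ⟨y, hy'⟩ := Finite.exists_infinite_fiber
      (fun t : ℕ => (⟨fun κ => f κ t, ⟨t, rfl⟩⟩ : Set.range fun t => fun κ => f κ t))
    have hset : Set.Infinite ((fun t : ℕ => (⟨fun κ => f κ t, ⟨t, rfl⟩⟩ :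
        Set.range fun t => fun κ => f κ t)) ⁻¹' {y}) := Set.infinite_coe_iff.1 hy'
    refine hset (Set.Finite.of_finite_image (f := fun t => ((q t : _) : Fin m → ℂ))
        ((hfin r m hr hc k i₀ i₁ hi y.1).subset ?_) ?_)
    · rintro c ⟨t, ht, rfl⟩
      refine ⟨L t, iF t, iN t, iA t, x t, φ t, hL t, hx0 t, hx1 t, hinj t, ?_, hy t⟩
      have h1 : (⟨fun κ => f κ t, ⟨t, rfl⟩⟩ : Set.range fun t => fun κ => f κ t) = y := ht
      rw [← h1]
    · intro t _ t' _ htt
      exact q.injective (Subtype.ext htt)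
  obtain ⟨s, hs0, hs⟩ := hil (UF r m) (Fin m × Fin m) (uw r m)
  obtain ⟨U, α, ⟨κ₀, hκ₀⟩, hα1, hα2⟩ := htor k (Fin m × Fin m) S hS f hSU hrange
    (s.sup MvPolynomial.totalDegree)
  have hev : ∀ᶠ t in (U : Filter ℕ), ∀ G ∈ s, ∀ z : k, z ≠ 0 →
      MvPolynomial.aeval (fun i => f i t * z ^ α i) G = 0 := by
    rw [Finset.eventually_all]
    intro G hG
    refine hα2 G (Finset.le_sup (f := MvPolynomial.totalDegree) hG) fun t => ?_
    exact hrel k (L t) r m (hL t) (x t) G (hs0 G hG)
  obtain ⟨t, ht⟩ := hev.exists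
  have h1 := triv2 hc2 hval hprd (fun κ => f κ t) (fun κ => (hSU κ t).1) α (fun G hG z hz =>
    hs k _ (fun G' hG' => ht G' hG' z hz) G hG)
  have h2 : α (i₁, i₀) = 0 := by
    refine hα1 _ fun t => ?_
    simp only [hf, nd]
    rw [if_neg hi.symm, hx0, hx1, sub_zero, map_one]
  apply hκ₀
  obtain ⟨i, j⟩ := κ₀
  by_cases hij : i = j
  · refine hα1 _ fun t => ?_
    simp only [hf, nd]
    rw [if_pos hij]
  · rw [h1 i j i₁ i₀ hij hi.symm, h2]

end Pool.Agent.Y734.R
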