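import Mathlib

/-!
# Project Y734/R: statements for the polynomial bound
-/

set_option autoImplicit false

namespace Pool.Agent.Y734.R

/-- `A` measures similarity in a tree (the opposite of an ultrametric). -/
def Sim {G : Type} [AddCommGroup G] [LinearOrder G] {m : ℕ} (A : Fin m → Fin m → G) : Prop :=
  (∀ i j, 0 ≤ A i j) ∧ (∀ i j, A i j = A j i) ∧ (∀ i j l, min (A i j) (A j l) ≤ A i l) ∧
    ∀ i j, A i j ≤ A i i

/-- Job P1. Similarities are positive semidefinite. -/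
def PsdStmt : Prop :=
  ∀ (G : Type) [AddCommGroup G] [LinearOrder G] [IsOrderedAddMonoid G] (m : ℕ)
    (A : Fin m → Fin m → G), Sim A → ∀ z : Fin m → ℤ, 0 ≤ ∑ i, ∑ j, (z i * z j) • A i j

/-- Job P2. The inequality for a cluster `C`. -/
def CluStmt : Prop :=
  ∀ (G : Type) [AddCommGroup G] [LinearOrder G] [IsOrderedAddMonoid G] (q m : ℕ) (e : G)
    (A : Fin q → Fin m → Fin m → G), (∀ s, Sim (A s)) → (∀ s i, A s i i = e) →
    (∀ i j, i ≠ j → ∑ s, A s i j = e) →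
    ∀ (s : Fin q) (C : Finset (Fin m)) (t : G), 0 ≤ t → C.card < m →
      (∀ i ∈ C, ∀ j ∈ C, t ≤ A s i j) → (∀ i ∈ C, ∀ j ∉ C, A s i j ≤ t) →
      (m - C.card) • ∑ i ∈ C, ∑ j ∈ C, (A s i j - t) ≤ ((q - 1) * C.card * m) • e

/-- Job P3. The big cluster of a similarity. -/
def BigStmt : Prop :=
  ∀ (G : Type) [AddCommGroup G] [LinearOrder G] [IsOrderedAddMonoid G] (q m : ℕ) (e : G)
    (A : Fin q → Fin m → Fin m → G), 0 < m → (∀ s, Sim (A s)) → (∀ s i, A s i i = e) →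
    (∀ i j, i ≠ j → ∑ s, A s i j = e) →
    ∀ s : Fin q, ∃ (K : Finset (Fin m)) (b : G), 2 * q * (m - K.card) ≤ m ∧ 0 ≤ b ∧
      (∀ i ∈ K, ∀ j ∈ K, b ≤ A s i j) ∧
      ∑ i ∈ K, ∑ j ∈ K, (A s i j - b) ≤ (2 * q * (q - 1) * m) • e

/-- Job P4. The additive form, with the bound `8 * q ^ 5`. -/
def CombCStmt : Prop :=
  ∀ (G : Type) [AddCommGroup G] [LinearOrder G] [IsOrderedAddMonoid G] (q m : ℕ)
    (d : Fin q → Fin m → Fin m → G), 2 ≤ q → 8 * q ^ 5 ≤ m → (∀ s i j, d s i j = d s j i) →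
    (∀ s i j l, i ≠ j → j ≠ l → i ≠ l → d s i l ≤ max (d s i j) (d s j l)) →
    (∀ i j, i ≠ j → ∑ s, d s i j = 0) →
    ∀ s i j a b, i ≠ j → a ≠ b → d s i j = d s a b

end Pool.Agent.Y734.R
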