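import Mathlib
import Pool.Agent.Y734.R.Stms3
import Pool.Agent.Y734.R.Stms5

/-!
# The multiplicative form of the combinatorial property, part 3 (after helper322)
-/

set_option autoImplicit false

namespace Pool.Agent.Y734.R

open Classical in
theorem cp3 (h : CombCStmt) (q m : ℕ) (hq : 0 < q) (hm : 8 * q ^ 5 ≤ m) : CombP q m := by
  intro Γ _ δ h0 hsym hult hprod s i j a b hij hab
  rcases Nat.lt_or_ge q 2 with hq2 | hq2
  · have hq1 : q = 1 := by omega
    subst hq1
    have e1 := hprod i j hij
    have e2 := hprod a b hab
    rw [Fin.prod_univ_one] at e1 e2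
    have hs : s = 0 := Subsingleton.elim _ _
    rw [hs, e1, e2]
  · have key := h (Additive Γˣ) q m
      (fun s i j => if hij : i ≠ j then Additive.ofMul (Units.mk0 (δ s i j) (h0 s i j hij)) else 0)
      hq2 hm ?_ ?_ ?_ s i j a b hij hab
    · simp only [dif_pos hij, dif_pos hab] at key
      have k2 := Additive.ofMul.injective key
      have k3 := congrArg (fun u : Γˣ => (u : Γ)) k2
      simpa using k3
    · intro s i j
      by_cases hij : i = j
      · subst hij; rfl
      · have hji : j ≠ i := fun h => hij h.symm
        simp only [dif_pos hij, dif_pos hji, ne_eq]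
        congr 1
        exact Units.ext (hsym s i j)
    · intro s i j l hij hjl hil
      simp only [dif_pos hij, dif_pos hjl, dif_pos hil]
      have h1 := hult s i j l
      rcases le_max_iff.mp h1 with h2 | h2
      · exact le_max_of_le_left (Additive.ofMul_le.mpr (Units.val_le_val.mp (by simpa using h2)))
      · exact le_max_of_le_right (Additive.ofMul_le.mpr (Units.val_le_val.mp (by simpa using h2)))
    · intro i j hij
      simp only [dif_pos hij]
      rw [← ofMul_prod]
      have : (∏ s, Units.mk0 (δ s i j) (h0 s i j hij)) = 1 := by
        apply Units.ext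
        rw [Units.coe_prod]
        simpa using hprod i j hij
      rw [this]
      rfl

end Pool.Agent.Y734.R
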