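import Mathlib
import Pool.Agent.Y734.R.Hil

/-!
# Project Y734/R: finiteness of the coordinates
-/

set_option autoImplicit false

namespace Pool.Agent.Y734.R

open NumberField Filter Pool.Agent.Y734.M

theorem ux_injective (r m : ℕ) (s : Fin r) {i j : Fin m} (h : ux r m s i = ux r m s j) : i = j := by
  have h1 := IsFractionRing.injective (MvPolynomial (Fin r × Fin m) ℚ) (UF r m) h
  have h2 := MvPolynomial.X_injective h1
  exact (Prod.mk.inj h2).2

theorem uw_ne_zero (r m : ℕ) (κ : Fin m × Fin m) : uw r m κ ≠ 0 := by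
  unfold uw
  split_ifs with h
  · exact one_ne_zero
  · exact Finset.prod_ne_zero_iff.2 fun s _ => sub_ne_zero.2 fun h' => h (ux_injective r m s h')

/-- the ultrametrics of a valuation -/
noncomputable def dl (r m : ℕ) (O : ValuationSubring (UF r m)) (s : Fin r) (i j : Fin m) :
    O.ValueGroup := O.valuation (ux r m s i - ux r m s j)

theorem prod_dl (r m : ℕ) (O : ValuationSubring (UF r m)) {i j : Fin m} (hij : i ≠ j) :
    ∏ s, dl r m O s i j = O.valuation (uw r m (i, j)) := by
  unfold uw dl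
  rw [if_neg hij, map_prod]

theorem dl_ne (r m : ℕ) (O : ValuationSubring (UF r m)) (s : Fin r) {i j : Fin m} (hij : i ≠ j) :
    dl r m O s i j ≠ 0 := by
  unfold dl
  rw [Ne, Valuation.zero_iff]
  exact sub_ne_zero.2 fun h' => hij (ux_injective r m s h')

theorem dl_symm (r m : ℕ) (O : ValuationSubring (UF r m)) (s : Fin r) (i j : Fin m) :
    dl r m O s i j = dl r m O s j i := by
  unfold dl
  rw [← Valuation.map_neg, neg_sub]

theorem dl_le (r m : ℕ) (O : ValuationSubring (UF r m)) (s : Fin r) (i j l : Fin m) :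
    dl r m O s i l ≤ max (dl r m O s i j) (dl r m O s j l) := by
  unfold dl
  have h1 : ux r m s i - ux r m s l = (ux r m s i - ux r m s j) + (ux r m s j - ux r m s l) := by
    ring
  rw [h1]
  exact O.valuation.map_add _ _

/-- A toric family which satisfies the universal equations is trivial. -/
theorem triv {r m : ℕ} (hc : Comb r m) (hval : ValStmt) {k : Type} [Field k] [NumberField k]
    (u : Fin m × Fin m → k) (hu : ∀ κ, u κ ≠ 0) (α : Fin m × Fin m → ℤ)
    (h : ∀ G : MvPolynomial (Fin m × Fin m) ℚ, MvPolynomial.aeval (uw r m) G = 0 → ∀ z : k,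
      z ≠ 0 → MvPolynomial.aeval (fun i => u i * z ^ α i) G = 0) :
    ∀ i j a b : Fin m, i ≠ j → a ≠ b → α (i, j) = α (a, b) := by
  obtain ⟨O, hO⟩ := hval (UF r m) k (Fin m × Fin m) (uw r m) u α (uw_ne_zero r m) hu h
  obtain ⟨O', hO'⟩ := hval (UF r m) k (Fin m × Fin m) (uw r m) u (fun κ => - α κ)
    (uw_ne_zero r m) hu (fun G hG z hz => by
      have h1 := h G hG z⁻¹ (inv_ne_zero hz)
      have h2 : (fun i => u i * z⁻¹ ^ α i) = (fun i => u i * z ^ (- α i)) := by
        funext i
        rw [inv_zpow', zpow_neg]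
      rw [h2] at h1
      exact h1)
  have e1 : ∀ κ κ', O.valuation (uw r m κ) < O.valuation (uw r m κ') ↔ α κ' < α κ := by
    intro κ κ'
    rcases lt_trichotomy (α κ') (α κ) with h1 | h1 | h1
    · exact ⟨fun _ => h1, fun _ => (hO κ' κ).2 h1⟩
    · have := (hO κ' κ).1 h1
      exact ⟨fun h2 => absurd this (ne_of_gt h2), fun h2 => absurd h1 (ne_of_lt h2)⟩
    · have := (hO κ κ').2 h1
      exact ⟨fun h2 => absurd h2 (not_lt.2 this.le), fun h2 => absurd h2 (not_lt.2 h1.le)⟩
  have e2 : ∀ κ κ', O'.valuation (uw r m κ) < O'.valuation (uw r m κ') ↔ α κ < α κ' := by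
    intro κ κ'
    rcases lt_trichotomy (α κ) (α κ') with h1 | h1 | h1
    · exact ⟨fun _ => h1, fun _ => (hO' κ' κ).2 (neg_lt_neg h1)⟩
    · have := (hO' κ κ').1 (by rw [h1])
      exact ⟨fun h2 => absurd this (ne_of_lt h2), fun h2 => absurd h1 (ne_of_lt h2)⟩
    · have := (hO' κ κ').2 (neg_lt_neg h1)
      exact ⟨fun h2 => absurd h2 (not_lt.2 this.le), fun h2 => absurd h2 (not_lt.2 h1.le)⟩
  have h3 := hc O.ValueGroup O'.ValueGroup (dl r m O) (dl r m O') (fun s i j => dl_ne r m O s)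
    (fun s i j => dl_ne r m O' s) (dl_symm r m O) (dl_symm r m O') (dl_le r m O) (dl_le r m O')
    (fun i j l hij hil => by
      rw [prod_dl r m O hij, prod_dl r m O hil, prod_dl r m O' hij, prod_dl r m O' hil, e1, e2])
  intro i j a b hij hab
  have h4 : O.valuation (uw r m (i, j)) = O.valuation (uw r m (a, b)) := by
    rw [← prod_dl r m O hij, ← prod_dl r m O hab]
    exact Finset.prod_congr rfl fun s _ => (h3 s i j a b hij hab).1
  rcases lt_trichotomy (α (i, j)) (α (a, b)) with h5 | h5 | h5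
  · exact absurd h4.symm (ne_of_lt ((e1 _ _).2 h5))
  · exact h5
  · exact absurd h4 (ne_of_lt ((e1 _ _).2 h5))

/-- Finiteness of the coordinates for points of degree `r`. -/
theorem core {r m : ℕ} (hr : 0 < r) (hc : Comb r m) (hval : ValStmt) (hrel : RelStmt)
    (hfin : FinStmt) (htor : ToriStmt) (hsur : SurStmt) (k : Type) [Field k] [NumberField k]
    (S : Finset ℕ) (hS : ∀ p ∈ S, p.Prime) (i₀ i₁ : Fin m) (hi : i₀ ≠ i₁) :
    (Xs k r m S i₀ i₁).Finite := by
  classical
  by_contra hinf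
  have hinf' : Set.Infinite (Xs k r m S i₀ i₁) := hinf
  let q := hinf'.natEmbedding
  have hq := fun t => (q t).2
  simp only [Xs, Set.mem_ofPred_eq] at hq
  choose L iF iN iA x φ hL hx0 hx1 hxS hy using hq
  set f : Fin m × Fin m → ℕ → k := fun κ t => nd k (x t) κ with hf
  have hinj : ∀ t, Function.Injective (x t) := by
    intro t i j hij
    by_contra hne
    exact (hxS t i j hne).1 (sub_eq_zero.2 hij)
  have hSU : ∀ κ t, SU S (f κ t) := by
    intro κ t
    simp only [hf, nd]
    split_ifs with h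
    · exact ⟨one_ne_zero, 0, by simpa using isIntegral_one, by simpa using isIntegral_one⟩
    · exact hsur k (L t) S _ (hxS t _ _ h)
  have hrange : Set.Infinite (Set.range fun t => fun κ => f κ t) := by
    intro hfr
    have : Finite (Set.range fun t => fun κ => f κ t) := hfr
    obtain ⟨y, hy'⟩ := Finite.exists_infinite_fiber
      (fun t : ℕ => (⟨fun κ => f κ t, ⟨t, rfl⟩⟩ : Set.range fun t => fun κ => f κ t))
    have hset : Set.Infinite ((fun t : ℕ => (⟨fun κ => f κ t, ⟨t, rfl⟩⟩ :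
        Set.range fun t => fun κ => f κ t)) ⁻¹' {y}) := Set.infinite_coe_iff.1 hy'
    refine hset (Set.Finite.of_finite_image (f := fun t => ((q t : _) : Fin m → ℂ))
        ((hfin r m hr hc k i₀ i₁ hi y.1).subset ?_) ?_)
    · rintro c ⟨t, ht, rfl⟩
      refine ⟨L t, iF t, iN t, iA t, x t, φ t, hL t, hx0 t, hx1 t, hinj t, ?_, hy t⟩
      have h1 : (⟨fun κ => f κ t, ⟨t, rfl⟩⟩ : Set.range fun t => fun κ => f κ t) = y := ht
      rw [← h1]
    · intro t _ t' _ htt
      exact q.injective (Subtype.ext htt)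
  obtain ⟨s, hs0, hs⟩ := hil (UF r m) (Fin m × Fin m) (uw r m)
  obtain ⟨U, α, ⟨κ₀, hκ₀⟩, hα1, hα2⟩ := htor k (Fin m × Fin m) S hS f hSU hrange
    (s.sup MvPolynomial.totalDegree)
  have hev : ∀ᶠ t in (U : Filter ℕ), ∀ G ∈ s, ∀ z : k, z ≠ 0 →
      MvPolynomial.aeval (fun i => f i t * z ^ α i) G = 0 := by
    rw [Finset.eventually_all]
    intro G hG
    refine hα2 G (Finset.le_sup (f := MvPolynomial.totalDegree) hG) fun t => ?_
    exact hrel k (L t) r m (hL t) (x t) G (hs0 G hG)
  obtain ⟨t, ht⟩ := hev.exists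
  have h1 := triv hc hval (fun κ => f κ t) (fun κ => (hSU κ t).1) α (fun G hG z hz =>
    hs k _ (fun G' hG' => ht G' hG' z hz) G hG)
  have h2 : α (i₁, i₀) = 0 := by
    refine hα1 _ fun t => ?_
    simp only [hf, nd]
    rw [if_neg hi.symm, hx0, hx1, sub_zero, map_one]
  apply hκ₀
  obtain ⟨i, j⟩ := κ₀
  by_cases hij : i = j
  · refine hα1 _ fun t => ?_
    simp only [hf, nd]
    rw [if_pos hij]
  · rw [h1 i j i₁ i₀ hij hi.symm, h2]

end Pool.Agent.Y734.R
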