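import Mathlib
import Pool.Agent.Y734.R.LOW.Main

/-!
# Project Y734/R: infinitely many integral points of degree at most `r` of `M_{0,2r+2}`

The points `∞, -(r-1), ..., r-1, y, -y`; extends `Pool.Agent.Y734.R.LOW.Main` (helper232).
-/

set_option autoImplicit false

namespace Pool.Agent.Y734.R.LOW

open Pool.Agent.Y734.M Pool.Agent.Y734.R Polynomial

section pt

variable {L : Type} [Field L] [CharZero L]

/-- the points, `y = x - r` -/
noncomputable def pts2 (r : ℕ) (x : L) (i : Fin (2 * r + 2)) : Fin 2 → L :=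
  if (i : ℕ) = 0 then ![1, 0] else if (i : ℕ) = 2 * r then ![x - r, 1] else
    if (i : ℕ) = 2 * r + 1 then ![-(x - r), 1] else ![((i : ℕ) : L) - r, 1]

/-- one half of the pairs -/
theorem su_pts2_lt {r : ℕ} (hr : 2 ≤ r) (N : ℕ) {x : L} (hx : aeval x (pF r N) = 0)
    (i j : Fin (2 * r + 2)) (hij : (i : ℕ) < j) : SU (Sr r) (dt (pts2 r x i) (pts2 r x j)) := by
  have hi := i.2
  have hj := j.2
  have hxr : SU (Sr r) (x - ((r : ℤ) : L)) := su_x_sub hr N hx r (by omega) (by omega)
  unfold pts2 dt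
  by_cases hi0 : (i : ℕ) = 0
  · have hj0 : (j : ℕ) ≠ 0 := by omega
    rw [if_pos hi0, if_neg hj0]
    split_ifs
    · exact su_congr (su_one _) (by simp)
    · exact su_congr (su_one _) (by simp)
    · exact su_congr (su_one _) (by simp)
  · have hj0 : (j : ℕ) ≠ 0 := by omega
    rw [if_neg hi0, if_neg hj0]
    by_cases hir : (i : ℕ) = 2 * r
    · have hjr : (j : ℕ) ≠ 2 * r := by omega
      have hjr1 : (j : ℕ) = 2 * r + 1 := by omega
      rw [if_pos hir, if_neg hjr, if_pos hjr1]
      have h2 : SU (Sr r) ((2 : ℕ) : L) := su_nat r 2 (by norm_num) (by omega)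
      refine su_congr (su_mul h2 hxr) ?_
      simp
      ring
    · have hir1 : (i : ℕ) ≠ 2 * r + 1 := by omega
      rw [if_neg hir, if_neg hir1]
      by_cases hjr : (j : ℕ) = 2 * r
      · rw [if_pos hjr]
        have h1 := su_neg (su_x_sub hr N hx ((i : ℕ) : ℤ) (by omega) (by omega))
        refine su_congr h1 ?_
        simp
      · rw [if_neg hjr]
        by_cases hjr1 : (j : ℕ) = 2 * r + 1
        · rw [if_pos hjr1]
          have h1 := su_x_sub hr N hx (2 * (r : ℤ) - ((i : ℕ) : ℤ)) (by omega) (by omega)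
          refine su_congr h1 ?_
          simp
          ring
        · rw [if_neg hjr1]
          have h1 := su_int (L := L) r (((i : ℕ) : ℤ) - ((j : ℕ) : ℤ)) (by omega) (by
            rw [abs_le]
            constructor <;> omega)
          refine su_congr h1 ?_
          simp

theorem su_pts2 {r : ℕ} (hr : 2 ≤ r) (N : ℕ) {x : L} (hx : aeval x (pF r N) = 0)
    (i j : Fin (2 * r + 2)) (hij : i ≠ j) : SU (Sr r) (dt (pts2 r x i) (pts2 r x j)) := by
  rcases lt_or_gt_of_ne (fun h => hij (Fin.ext h) : (i : ℕ) ≠ j) with h | h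
  · exact su_pts2_lt hr N hx i j h
  · refine su_congr (su_neg (su_pts2_lt hr N hx j i h)) ?_
    unfold dt
    ring

theorem ip_pts2 {r : ℕ} (hr : 2 ≤ r) (N : ℕ) {x : L} (hx : aeval x (pF r N) = 0) :
    IP (Sr r) (pts2 r x) := by
  refine ⟨fun i j hij => (su_pts2 hr N hx i j hij).1, fun g hg => ?_⟩
  have hne : ∀ a b : Fin 4, a ≠ b → g a ≠ g b := fun a b hab h => hab (hg h)
  unfold cr
  rw [div_eq_mul_inv]
  exact su_mul (su_mul (su_pts2 hr N hx _ _ (hne 0 1 (by decide)))
    (su_pts2 hr N hx _ _ (hne 2 3 (by decide))))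
    (su_inv (su_mul (su_pts2 hr N hx _ _ (hne 0 2 (by decide)))
      (su_pts2 hr N hx _ _ (hne 1 3 (by decide)))))

theorem cr_val2 {r : ℕ} (hr : 2 ≤ r) (x : L) :
    cr (pts2 r x) ⟨0, by omega⟩ ⟨2 * r, by omega⟩ ⟨1, by omega⟩ ⟨2, by omega⟩ = -(x - 2)⁻¹ := by
  have e0 : pts2 r x ⟨0, by omega⟩ = ![1, 0] := by simp [pts2]
  have e1 : pts2 r x ⟨2 * r, by omega⟩ = ![x - r, 1] := by
    unfold pts2
    rw [if_neg (by simp <;> omega), if_pos rfl]
  have e2 : pts2 r x ⟨1, by omega⟩ = ![(1 : L) - r, 1] := by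
    unfold pts2
    rw [if_neg (by simp), if_neg (by simp <;> omega), if_neg (by simp <;> omega)]
    simp
  have e3 : pts2 r x ⟨2, by omega⟩ = ![(2 : L) - r, 1] := by
    unfold pts2
    rw [if_neg (by simp), if_neg (by simp <;> omega), if_neg (by simp <;> omega)]
    simp
  unfold cr
  rw [e0, e1, e2, e3]
  unfold dt
  simp only [Matrix.cons_val_zero, Matrix.cons_val_one]
  have h1 : (1 * 1 - 0 * (x - r) : L) * ((1 - r) * 1 - 1 * (2 - r)) = -1 := by ring
  have h2 : (1 * 1 - 0 * (1 - r) : L) * ((x - r) * 1 - 1 * (2 - r)) = x - 2 := by ring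
  rw [h1, h2, neg_div, one_div]

end pt

theorem lowc (k : Type) [Field k] [NumberField k] (r : ℕ) (hr : 2 ≤ r) :
    ∃ S : Finset ℕ, (∀ p ∈ S, p.Prime) ∧ (Ps k r (2 * r + 2) S).Infinite := by
  refine ⟨Sr r, fun p hp => (Finset.mem_filter.1 hp).2, ?_⟩
  have hex := fun N : ℕ => exists_root k (pF r N) (pF_deg hr N).1 (by
    rw [(pF_deg hr N).2]; omega)
  choose L iF iN iA x hL hx using hex
  have hφ : ∀ N, Nonempty (L N →+* ℂ) := fun N => inferInstance
  let φ : ∀ N, L N →+* ℂ := fun N => (hφ N).some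
  refine Set.infinite_of_injective_forall_mem
    (f := fun N => fun i j l m => φ N (cr (pts2 r (x N)) i j l m)) ?_ ?_
  · intro N N' hNN
    have h1 : φ N (x N) = φ N' (x N') := by
      have h2 := congrFun (congrFun (congrFun (congrFun hNN ⟨0, by omega⟩) ⟨2 * r, by omega⟩)
        ⟨1, by omega⟩) ⟨2, by omega⟩
      simp only [cr_val2 hr, map_neg, map_inv₀, map_sub, map_ofNat] at h2
      have h3 := inv_injective (neg_injective h2)
      exact sub_left_injective h3
    have hmap : ∀ N, ∏ i ∈ Finset.range r, (φ N (x N) - ((i : ℂ) + 1)) =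
        2 ^ N * ∏ j ∈ Finset.range (r - 1), (φ N (x N) - ((r : ℂ) + j + 1)) := by
      intro N
      have h4 := hx N
      rw [pF_aeval] at h4
      have h5 := congrArg (φ N) (sub_eq_zero.1 h4)
      rw [map_prod, map_mul, map_prod, map_pow, map_ofNat (φ N) 2] at h5
      simpa using h5
    have hne : ∏ j ∈ Finset.range (r - 1), (φ N (x N) - ((r : ℂ) + j + 1)) ≠ 0 := by
      rw [Finset.prod_ne_zero_iff]
      intro j hj hcon
      rw [Finset.mem_range] at hj
      have h6 := (su_x_sub hr N (hx N) ((r : ℤ) + j + 1) (by omega) (by omega)).1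
      apply h6
      apply (φ N).injective
      rw [map_sub, map_zero, ← hcon]
      simp
    have e1 := hmap N
    have e2 := hmap N'
    rw [← h1] at e2
    have e3 := mul_right_cancel₀ hne (e1.symm.trans e2)
    have h6 : ((2 ^ N : ℕ) : ℂ) = ((2 ^ N' : ℕ) : ℂ) := by
      push_cast
      exact e3
    exact Nat.pow_right_injective le_rfl (Nat.cast_injective h6)
  · intro N
    exact ⟨L N, iF N, iN N, iA N, _, φ N, (hL N).trans_eq (pF_deg hr N).2, ip_pts2 hr N (hx N), rfl⟩

end Pool.Agent.Y734.R.LOW
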