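import Mathlib
import Pool.Agent.Y734.R.Stms

/-!
# Project Y734/R: statements, part 2
-/

set_option autoImplicit false

namespace Pool.Agent.Y734.R

open NumberField Pool.Agent.Y734.M

/-- Job LOWB. Infinitely many points of degree at most `r` of `M_{0,4r-2}` over a suitable number
field, for `r ≥ 2`. -/
def LowbStmt : Prop :=
  ∀ r : ℕ, 2 ≤ r → ∃ (k : Type) (_ : Field k) (_ : NumberField k) (S : Finset ℕ),
    (∀ p ∈ S, p.Prime) ∧ (Ps k r (4 * r - 2) S).Infinite

end Pool.Agent.Y734.R
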