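import Mathlib
import Pool.Agent.Y734.R.Core
import Pool.Agent.Y734.R.Stms2
import Pool.Agent.Y734.R.COMB.Main
import Pool.Agent.Y734.R.VAL.Main
import Pool.Agent.Y734.R.REL.Main
import Pool.Agent.Y734.R.INT.Main
import Pool.Agent.Y734.R.FIN.Main
import Pool.Agent.Y734.R.TORI.Main
import Pool.Agent.Y734.R.PTS.Main
import Pool.Agent.Y734.R.Lowc
import Pool.Agent.Y734.N.TOR.Main
import Pool.Agent.Y734.N.SG.Main

/-!
# Project Y734/R: the theorem
-/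

set_option autoImplicit false

namespace Pool.Agent.Y734.R

open NumberField Pool.Agent.Y734.M

/-- The finiteness theorem. -/
theorem finiteness (r : ℕ) : ∃ n₀ : ℕ, ∀ (k : Type) [Field k] [NumberField k] (S : Finset ℕ),
    (∀ p ∈ S, p.Prime) → ∀ n, n₀ ≤ n → (Ps k r n S).Finite := by
  choose m₀ hm₀ using COMB.comb
  refine ⟨(Finset.range (r + 1)).sup m₀ + 3, fun k _ _ S hS n hn => ?_⟩
  obtain ⟨n', rfl⟩ : ∃ n', n = n' + 3 := ⟨n - 3, by omega⟩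
  refine PTS.pts k r n' S fun r' h0 hr' => ?_
  have h1 : m₀ r' ≤ (Finset.range (r + 1)).sup m₀ :=
    Finset.le_sup (f := m₀) (Finset.mem_range.2 (by omega))
  exact core h0 (hm₀ r' (n' + 2) (by omega)) VAL.val REL.rel (FIN.finn INT.intg)
    (TORI.tori (Pool.Agent.Y734.N.TOR.tor Pool.Agent.Y734.N.SG.sg)) PTS.sur k S hS 1 0
    (by simp)

/-- upward closed sets of natural numbers -/
theorem exists_threshold {Q : ℕ → Prop} (hup : ∀ n, 4 ≤ n → Q n → Q (n + 1)) {a b : ℕ}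
    (ha : 4 ≤ a) (hQa : ¬ Q a) (hb : ∀ n, b ≤ n → Q n) :
    ∃ m, a + 1 ≤ m ∧ m ≤ b ∧ ∀ n, 4 ≤ n → (Q n ↔ m ≤ n) := by
  classical
  have hup' : ∀ n n', 4 ≤ n → n ≤ n' → Q n → Q n' := by
    intro n n' h4 hle hq
    induction n', hle using Nat.le_induction with
    | base => exact hq
    | succ l hl ih => exact hup l (by omega) ih
  have hab : a < b := by
    by_contra h
    exact hQa (hb a (by omega))
  have hex : ∃ m, 4 ≤ m ∧ Q m := ⟨b, by omega, hb b le_rfl⟩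
  refine ⟨Nat.find hex, ?_, Nat.find_min' hex ⟨by omega, hb b le_rfl⟩, fun n hn => ⟨fun hq =>
    Nat.find_min' hex ⟨hn, hq⟩, fun hle => hup' _ _ (Nat.find_spec hex).1 hle (Nat.find_spec hex).2⟩⟩
  by_contra hlt
  exact hQa (hup' _ _ (Nat.find_spec hex).1 (by omega) (Nat.find_spec hex).2)

/-- The theorem. -/
theorem main (hmon : MonStmt) (hlowb : LowbStmt) (r : ℕ) (hr : 2 ≤ r) : ∃ n₀ : ℕ,
    (∀ (k : Type) [Field k] [NumberField k], ∃ m : ℕ, 2 * r + 3 ≤ m ∧ m ≤ n₀ ∧ ∀ n, 4 ≤ n →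
      ((∀ S : Finset ℕ, (∀ p ∈ S, p.Prime) → (Ps k r n S).Finite) ↔ m ≤ n)) ∧
    ∃ (k : Type) (_ : Field k) (_ : NumberField k) (S : Finset ℕ), (∀ p ∈ S, p.Prime) ∧
      (Ps k r (4 * r - 2) S).Infinite := by
  obtain ⟨n₀, hn₀⟩ := finiteness r
  refine ⟨n₀, fun k _ _ => ?_, hlowb r hr⟩
  obtain ⟨S, hS, hinf⟩ := LOW.lowc k r hr
  obtain ⟨m, h1, h2, h3⟩ := exists_threshold
    (Q := fun n => ∀ S : Finset ℕ, (∀ p ∈ S, p.Prime) → (Ps k r n S).Finite)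
    (a := 2 * r + 2) (b := n₀) (fun n hn hq S hS => hmon k r n S hn (hq S hS)) (by omega)
    (fun h => hinf (h S hS)) (fun n hn S hS => hn₀ k S hS n hn)
  exact ⟨m, by omega, h2, h3⟩

end Pool.Agent.Y734.R
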