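import Mathlib
import Pool.Agent.Y734.R.Core2
import Pool.Agent.Y734.R.Fin
import Pool.Agent.Y734.R.Cp3
import Pool.Agent.Y734.R.PR.Main

/-!
# Project Y734/R: the theorem with a polynomial bound
-/

set_option autoImplicit false

namespace Pool.Agent.Y734.R

open NumberField Pool.Agent.Y734.M

theorem pow_le_pow5 {q r : ℕ} (hq : q ≤ 2 * r) : 8 * q ^ 5 ≤ 256 * r ^ 5 :=
  calc 8 * q ^ 5 ≤ 8 * (2 * r) ^ 5 := Nat.mul_le_mul_left 8 (Nat.pow_le_pow_left hq 5)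
    _ = 256 * r ^ 5 := by ring

/-- The finiteness theorem. -/
theorem finiteness5 (hb : CombCStmt) (r : ℕ) (k : Type) [Field k] [NumberField k] (S : Finset ℕ)
    (hS : ∀ p ∈ S, p.Prime) (n : ℕ) (h3 : 3 ≤ n) (hn : 256 * r ^ 5 + 1 ≤ n) :
    (Ps k r n S).Finite := by
  obtain ⟨n', rfl⟩ : ∃ n', n = n' + 3 := ⟨n - 3, by omega⟩
  refine PTS.pts k r n' S fun r' h0 hr' => ?_
  have hc : ∀ q, 0 < q → q ≤ 2 * r → CombP q (n' + 2) := by
    intro q hq hqr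
    refine cp3 hb q (n' + 2) hq ?_
    have := pow_le_pow5 hqr
    omega
  exact core2 h0 (hc r' h0 (by omega)) (hc (r' + r') (by omega) (by omega)) VAL.val PR.prd REL.rel
    (finn2 INT.intg) (TORI.tori (Pool.Agent.Y734.N.TOR.tor Pool.Agent.Y734.N.SG.sg)) PTS.sur k S hS
    1 0 (by simp)

/-- The theorem. -/
theorem main5 (hb : CombCStmt) (hmon : MonStmt) (hlowb : LowbStmt) (r : ℕ) (hr : 2 ≤ r) :
    (∀ (k : Type) [Field k] [NumberField k], ∃ m : ℕ, 2 * r + 3 ≤ m ∧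
      m ≤ 256 * r ^ 5 + 1 ∧ ∀ n, 4 ≤ n →
        ((∀ S : Finset ℕ, (∀ p ∈ S, p.Prime) → (Ps k r n S).Finite) ↔ m ≤ n)) ∧
    ∃ (k : Type) (_ : Field k) (_ : NumberField k) (S : Finset ℕ), (∀ p ∈ S, p.Prime) ∧
      (Ps k r (4 * r - 2) S).Infinite := by
  refine ⟨fun k _ _ => ?_, hlowb r hr⟩
  have h4 : 4 ≤ 256 * r ^ 5 := by
    have : 1 ≤ r ^ 5 := Nat.one_le_pow _ _ (by omega)
    omega
  obtain ⟨S, hS, hinf⟩ := LOW.lowc k r hr
  obtain ⟨m, h1, h2, h3⟩ := exists_threshold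
    (Q := fun n => ∀ S : Finset ℕ, (∀ p ∈ S, p.Prime) → (Ps k r n S).Finite)
    (a := 2 * r + 2) (b := 256 * r ^ 5 + 1)
    (fun n hn hq S hS => hmon k r n S hn (hq S hS)) (by omega)
    (fun h => hinf (h S hS)) (fun n hn S hS => finiteness5 hb r k S hS n (by omega) hn)
  exact ⟨m, by omega, h2, h3⟩

end Pool.Agent.Y734.R
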